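import Mathlib

/-!
Definitions for the Weisfeiler-Leman method on k-tuples.
-/

namespace Pool.Agent.H39.SRGWL

universe u v

/-- The colours used by the `k`-dimensional Weisfeiler-Leman method after `t` rounds, as data:
initially the isomorphism type of a `k`-tuple (which entries are equal, which are adjacent), and
after one more round the old colour together with the multiset, over all vertices `x`, of the
lists of old colours of the `k` tuples obtained by replacing one coordinate by `x`. -/
def Col (k : ℕ) : ℕ → Type
  | 0 => Fin k → Fin k → Prop × Prop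
  | t + 1 => Col k t × Multiset (Fin k → Col k t)

/-- The colour of the `k`-tuple `S` of vertices of `G` after `t` rounds of the `k`-dimensional
Weisfeiler-Leman method. -/
def col {V : Type u} [Fintype V] (G : SimpleGraph V) (k : ℕ) : (t : ℕ) → (Fin k → V) → Col k t
  | 0, S => fun i j => (S i = S j, G.Adj (S i) (S j))
  | t + 1, S => (col G k t S,
      (Finset.univ : Finset V).val.map fun x => fun i => col G k t (Function.update S i x))

/-- The `k`-dimensional Weisfeiler-Leman method does not distinguish `G` and `H`: some bijection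
between the `k`-tuples of vertices of `G` and the `k`-tuples of vertices of `H` preserves the
colour of every tuple, in every round (in particular the stable colour). -/
def WLIndist (k : ℕ) {V : Type u} {V' : Type v} [Fintype V] [Fintype V']
    (G : SimpleGraph V) (H : SimpleGraph V') : Prop :=
  ∃ Φ : (Fin k → V) ≃ (Fin k → V'), ∀ (t : ℕ) (S : Fin k → V), col G k t S = col H k t (Φ S)

/-- Back-and-forth relations on `k`-tuples preserve colours. -/
theorem col_eq_of_rel {V : Type u} {V' : Type v} [Fintype V] [Fintype V']
    (G : SimpleGraph V) (H : SimpleGraph V') (k : ℕ)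
    (R : (Fin k → V) → (Fin k → V') → Prop)
    (iso : ∀ S S', R S S' → ∀ i j, (S i = S j ↔ S' i = S' j) ∧
      (G.Adj (S i) (S j) ↔ H.Adj (S' i) (S' j)))
    (ext : ∀ S S', R S S' → ∃ β : V ≃ V', ∀ (x : V) (c : Fin k),
      R (Function.update S c x) (Function.update S' c (β x))) :
    ∀ (t : ℕ) (S : Fin k → V) (S' : Fin k → V'), R S S' → col G k t S = col H k t S' := by
  intro t
  induction t with
  | zero =>
    intro S S' h
    have h1 := iso S S' h
    funext i j
    exact Prod.ext (propext (h1 i j).1) (propext (h1 i j).2)
  | succ t ih =>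
    intro S S' h
    obtain ⟨β, hβ⟩ := ext S S' h
    show (col G k t S, _) = (col H k t S', _)
    refine Prod.ext (ih S S' h) ?_
    show (Finset.univ : Finset V).val.map (fun x => fun i => col G k t (Function.update S i x))
      = (Finset.univ : Finset V').val.map (fun x => fun i => col H k t (Function.update S' i x))
    have e1 : (Finset.univ : Finset V').val = (Finset.univ : Finset V).val.map β := by
      have := Finset.map_univ_equiv β
      rw [← this]
      rfl
    rw [e1, Multiset.map_map]
    apply Multiset.map_congr rfl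
    intro x _
    funext i
    exact ih _ _ (hβ x i)

/-- overwrite the first `j` coordinates of `S` by `x`. -/
def upd {V : Type u} {k : ℕ} (S : Fin k → V) (j : ℕ) (x : Fin j → V) : Fin k → V :=
  fun i => if h : i.val < j then x ⟨i.val, h⟩ else S i

theorem upd_snoc {V : Type u} {k : ℕ} (S : Fin k → V) (j : ℕ) (hj : j < k) (x : Fin j → V)
    (a : V) : upd S (j + 1) (Fin.snoc (α := fun _ => V) x a)
      = Function.update (upd S j x) ⟨j, hj⟩ a := by
  funext i
  unfold upd
  by_cases h1 : i.val < j
  · have h2 : i.val < j + 1 := by omega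
    have h3 : i ≠ ⟨j, hj⟩ := by
      intro h
      rw [h] at h1
      simp at h1
    rw [Function.update_of_ne h3]
    simp only [h1, h2, dif_pos]
    simp [Fin.snoc, h1]
  · by_cases h2 : i.val = j
    · have h3 : i = ⟨j, hj⟩ := Fin.ext h2
      subst h3
      rw [Function.update_self]
      simp [Fin.snoc]
    · have h4 : ¬ i.val < j + 1 := by omega
      have h3 : i ≠ ⟨j, hj⟩ := by
        intro h
        apply h2
        rw [h]
      rw [Function.update_of_ne h3]
      simp only [h1, h4, dif_neg, not_false_eq_true]

theorem exists_equiv_of_rel {V : Type u} {V' : Type v} (k : ℕ)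
    (R : (Fin k → V) → (Fin k → V') → Prop)
    (ext : ∀ S S', R S S' → ∃ β : V ≃ V', ∀ (x : V) (c : Fin k),
      R (Function.update S c x) (Function.update S' c (β x)))
    (S : Fin k → V) (S' : Fin k → V') (h : R S S') (j : ℕ) (hj : j ≤ k) :
    ∃ Φ : (Fin j → V) ≃ (Fin j → V'), ∀ x, R (upd S j x) (upd S' j (Φ x)) := by
  induction j with
  | zero =>
    refine ⟨Equiv.ofUnique _ _, fun x => ?_⟩
    have e1 : upd S 0 x = S := by
      funext i
      simp [upd]
    have e2 : ∀ y, upd S' 0 y = S' := by
      intro y
      funext i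
      simp [upd]
    rw [e1, e2]
    exact h
  | succ j ih =>
    obtain ⟨Φ, hΦ⟩ := ih (by omega)
    have hjk : j < k := by omega
    choose β hβ using fun x : Fin j → V => ext _ _ (hΦ x)
    let e : (Fin (j + 1) → V) ≃ (Fin j → V) × V :=
      (Fin.snocEquiv (fun _ : Fin (j + 1) => V)).symm.trans (Equiv.prodComm _ _)
    let e' : (Fin (j + 1) → V') ≃ (Fin j → V') × V' :=
      (Fin.snocEquiv (fun _ : Fin (j + 1) => V')).symm.trans (Equiv.prodComm _ _)
    refine ⟨e.trans ((Equiv.prodShear Φ β).trans e'.symm), fun x => ?_⟩
    obtain ⟨⟨y, a⟩, rfl⟩ := e.symm.surjective x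
    have e1 : (e.trans ((Equiv.prodShear Φ β).trans e'.symm)) (e.symm (y, a))
        = e'.symm (Φ y, β y a) := by
      simp [Equiv.prodShear]
    have e2 : e.symm (y, a) = Fin.snoc (α := fun _ => V) y a := rfl
    have e3 : e'.symm (Φ y, β y a) = Fin.snoc (α := fun _ => V') (Φ y) (β y a) := rfl
    rw [e1, e2, e3, upd_snoc S j hjk, upd_snoc S' j hjk]
    exact hβ y a ⟨j, hjk⟩

/-- A back-and-forth relation containing some pair of tuples shows that the method does not
distinguish the graphs. -/
theorem wlIndist_of_rel {V : Type u} {V' : Type v} [Fintype V] [Fintype V']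
    (G : SimpleGraph V) (H : SimpleGraph V') (k : ℕ)
    (R : (Fin k → V) → (Fin k → V') → Prop)
    (iso : ∀ S S', R S S' → ∀ i j, (S i = S j ↔ S' i = S' j) ∧
      (G.Adj (S i) (S j) ↔ H.Adj (S' i) (S' j)))
    (ext : ∀ S S', R S S' → ∃ β : V ≃ V', ∀ (x : V) (c : Fin k),
      R (Function.update S c x) (Function.update S' c (β x)))
    (S : Fin k → V) (S' : Fin k → V') (h : R S S') : WLIndist k G H := by
  obtain ⟨Φ, hΦ⟩ := exists_equiv_of_rel k R ext S S' h k le_rfl
  refine ⟨Φ, fun t T => ?_⟩
  have h1 := hΦ T
  have e1 : ∀ {A : Type u} (S T : Fin k → A), upd S k T = T := by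
    intro A S T
    funext i
    simp [upd]
  have e2 : ∀ {A : Type v} (S T : Fin k → A), upd S k T = T := by
    intro A S T
    funext i
    simp [upd]
  rw [e1, e2] at h1
  exact col_eq_of_rel G H k R iso ext t _ _ h1

end Pool.Agent.H39.SRGWL
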