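import Mathlib

/-!
The extension lemma: a functional satisfying all constraints visible in `U` extends to a
functional satisfying all constraints visible in `U'`.
-/

namespace Pool.Agent.H39.SRGWL

open Finset Matrix Module

/-- number of nonzero coordinates. -/
def wt {ι : Type} [Fintype ι] (c : ι → ZMod 2) : ℕ := (univ.filter fun i => c i ≠ 0).card

theorem wt_add {ι : Type} [Fintype ι] (c d : ι → ZMod 2) : wt (c + d) ≤ wt c + wt d := by
  classical
  refine le_trans (Finset.card_le_card ?_) (Finset.card_union_le _ _)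
  intro i hi
  simp only [mem_filter, mem_univ, true_and, mem_union, Pi.add_apply] at hi ⊢
  by_contra h
  push Not at h
  apply hi
  rw [h.1, h.2, add_zero]

theorem wt_zero {ι : Type} [Fintype ι] : wt (0 : ι → ZMod 2) = 0 := by
  simp [wt]

theorem wt_smul {ι : Type} [Fintype ι] (a : ZMod 2) (c : ι → ZMod 2) : wt (a • c) ≤ wt c := by
  apply Finset.card_le_card
  intro i hi
  simp only [mem_filter, mem_univ, true_and, Pi.smul_apply, smul_eq_mul] at hi ⊢
  intro h
  apply hi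
  rw [h, mul_zero]

section

variable {ι : Type} [Fintype ι] {T : Type} [AddCommGroup T] [Module (ZMod 2) T]

/-- the functional `Λ` satisfies all constraints of weight at most `s` visible in `U`. -/
def Good (s : ℕ) (θ : (ι → ZMod 2) →ₗ[ZMod 2] T) (σ : ι → ZMod 2)
    (Λ : T →ₗ[ZMod 2] ZMod 2) (U : Submodule (ZMod 2) T) : Prop :=
  ∀ c : ι → ZMod 2, wt c ≤ s → θ c ∈ U → Λ (θ c) = c ⬝ᵥ σ

theorem Good.mono {s : ℕ} {θ : (ι → ZMod 2) →ₗ[ZMod 2] T} {σ : ι → ZMod 2}
    {Λ : T →ₗ[ZMod 2] ZMod 2} {U U' : Submodule (ZMod 2) T} (h : Good s θ σ Λ U')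
    (hU : U ≤ U') : Good s θ σ Λ U := fun c h1 h2 => h c h1 (hU h2)

theorem good_ext (s : ℕ) (θ : (ι → ZMod 2) →ₗ[ZMod 2] T) (σ : ι → ZMod 2)
    (Λ : T →ₗ[ZMod 2] ZMod 2) (U U' : Submodule (ZMod 2) T)
    (hcl : ∀ c, wt c ≤ 2 * s → θ c ∈ U' → wt c ≤ s)
    (hg : Good s θ σ Λ U) :
    ∃ Λ' : T →ₗ[ZMod 2] ZMod 2, (∀ u ∈ U, Λ' u = Λ u) ∧ Good s θ σ Λ' U' := by
  let TT : Submodule (ZMod 2) (ι → ZMod 2) :=
    { carrier := {c | wt c ≤ s ∧ θ c ∈ U'}
      add_mem' := by
        rintro c d ⟨h1, h2⟩ ⟨h3, h4⟩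
        have h5 : θ (c + d) ∈ U' := by
          rw [map_add]
          exact U'.add_mem h2 h4
        exact ⟨hcl _ (by have := wt_add c d; omega) h5, h5⟩
      zero_mem' := ⟨by rw [wt_zero]; exact Nat.zero_le _, by rw [map_zero]; exact U'.zero_mem⟩
      smul_mem' := by
        rintro a c ⟨h1, h2⟩
        refine ⟨le_trans (wt_smul a c) h1, ?_⟩
        rw [map_smul]
        exact U'.smul_mem _ h2 }
  let Ψ : (U × TT) →ₗ[ZMod 2] T := U.subtype.coprod (θ.comp TT.subtype)
  let sg : (ι → ZMod 2) →ₗ[ZMod 2] ZMod 2 :=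
    { toFun := fun c => c ⬝ᵥ σ
      map_add' := fun a b => add_dotProduct a b σ
      map_smul' := fun a b => by simp [smul_dotProduct] }
  let Φ : (U × TT) →ₗ[ZMod 2] ZMod 2 := (Λ.comp U.subtype).coprod (sg.comp TT.subtype)
  have hΦ : Φ ∈ (LinearMap.ker Ψ).dualAnnihilator := by
    rw [Submodule.mem_dualAnnihilator]
    rintro ⟨u, c⟩ h
    rw [LinearMap.mem_ker] at h
    have h1 : (u : T) + θ (c : ι → ZMod 2) = 0 := h
    have h2 : θ (c : ι → ZMod 2) = u := by
      have h3 : (u : T) + (u : T) = 0 := by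
        have : ((2 : ZMod 2)) • (u : T) = 0 := by
          have e : (2 : ZMod 2) = 0 := by decide
          rw [e, zero_smul]
        rwa [two_smul] at this
      have h4 : (u : T) + θ (c : ι → ZMod 2) = (u : T) + (u : T) := by rw [h1, h3]
      exact add_left_cancel h4
    show Λ (u : T) + (c : ι → ZMod 2) ⬝ᵥ σ = 0
    have h5 := hg (c : ι → ZMod 2) c.2.1 (by rw [h2]; exact u.2)
    rw [← h5, h2]
    exact CharTwo.add_self_eq_zero _
  rw [← LinearMap.range_dualMap_eq_dualAnnihilator_ker] at hΦ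
  obtain ⟨Λ', hΛ'⟩ := hΦ
  refine ⟨Λ', fun u hu => ?_, fun c h1 h2 => ?_⟩
  · have := LinearMap.congr_fun hΛ' ((⟨u, hu⟩ : U), (0 : TT))
    simpa [Ψ, Φ] using this
  · have := LinearMap.congr_fun hΛ' ((0 : U), (⟨c, h1, h2⟩ : TT))
    simpa [Ψ, Φ, sg] using this

end

section

variable {m z : ℕ}

/-- the tensors visible from the subspaces `A`, `B`. -/
def Uvis (A : Submodule (ZMod 2) (Fin m → ZMod 2)) (B : Submodule (ZMod 2) (Fin z → ZMod 2)) :
    Submodule (ZMod 2) (Matrix (Fin m) (Fin z) (ZMod 2)) :=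
  Submodule.span (ZMod 2) {N | (∃ a ∈ A, ∃ e, N = vecMulVec a e) ∨
    (∃ w, ∃ b ∈ B, N = vecMulVec w b)}

theorem Uvis_mono {A A' : Submodule (ZMod 2) (Fin m → ZMod 2)}
    {B B' : Submodule (ZMod 2) (Fin z → ZMod 2)} (hA : A ≤ A') (hB : B ≤ B') :
    Uvis A B ≤ Uvis A' B' := by
  apply Submodule.span_mono
  rintro N (⟨a, ha, e, rfl⟩ | ⟨w, b, hb, rfl⟩)
  · exact Or.inl ⟨a, hA ha, e, rfl⟩
  · exact Or.inr ⟨w, b, hB hb, rfl⟩

theorem vecMul_Uvis {A : Submodule (ZMod 2) (Fin m → ZMod 2)}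
    {B : Submodule (ZMod 2) (Fin z → ZMod 2)} (φ : Fin m → ZMod 2) (hφ : ∀ a ∈ A, φ ⬝ᵥ a = 0)
    (N : Matrix (Fin m) (Fin z) (ZMod 2)) (hN : N ∈ Uvis A B) : φ ᵥ* N ∈ B := by
  induction hN using Submodule.span_induction with
  | mem N h =>
    rcases h with ⟨a, ha, e, rfl⟩ | ⟨w, b, hb, rfl⟩
    · rw [vecMul_vecMulVec, hφ a ha, zero_smul]
      exact B.zero_mem
    · rw [vecMul_vecMulVec]
      exact B.smul_mem _ hb
  | zero =>
    rw [vecMul_zero]
    exact B.zero_mem
  | add x y _ _ hx hy =>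
    rw [vecMul_add]
    exact B.add_mem hx hy
  | smul a x _ hx =>
    rw [vecMul_smul]
    exact B.smul_mem _ hx

/-- the sum of the pure tensors `w ⊗ h w` with coefficients `c w`. -/
def theta (h : (Fin m → ZMod 2) → (Fin z → ZMod 2)) :
    ((Fin m → ZMod 2) → ZMod 2) →ₗ[ZMod 2] Matrix (Fin m) (Fin z) (ZMod 2) where
  toFun c := ∑ w, c w • vecMulVec w (h w)
  map_add' c d := by
    rw [← Finset.sum_add_distrib]
    exact Finset.sum_congr rfl fun w _ => by rw [Pi.add_apply, add_smul]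
  map_smul' a c := by
    rw [Finset.smul_sum]
    exact Finset.sum_congr rfl fun w _ => by
      rw [Pi.smul_apply, smul_eq_mul, mul_smul, RingHom.id_apply]

theorem vecMul_theta (h : (Fin m → ZMod 2) → (Fin z → ZMod 2))
    (c : (Fin m → ZMod 2) → ZMod 2) (φ : Fin m → ZMod 2) :
    φ ᵥ* theta h c = ∑ w, (c w * (φ ⬝ᵥ w)) • h w := by
  show φ ᵥ* (∑ w, c w • vecMulVec w (h w)) = _
  rw [vecMul_sum]
  refine Finset.sum_congr rfl fun w _ => ?_
  rw [vecMul_smul, vecMul_vecMulVec, smul_smul]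

theorem closed_of_indep (h : (Fin m → ZMod 2) → (Fin z → ZMod 2)) (s d : ℕ)
    (hind : ∀ c : (Fin m → ZMod 2) → ZMod 2, wt c ≤ 2 * s → ∑ w, c w • h w = 0 → c = 0)
    (hs : 2 ^ d ≤ s)
    (A : Submodule (ZMod 2) (Fin m → ZMod 2)) (B : Submodule (ZMod 2) (Fin z → ZMod 2))
    (hd : finrank (ZMod 2) A + finrank (ZMod 2) B ≤ d)
    (c : (Fin m → ZMod 2) → ZMod 2) (hc : wt c ≤ 2 * s) (hU : theta h c ∈ Uvis A B) :
    wt c ≤ s := by
  classical
  let de := dotProductEquiv (ZMod 2) (Fin m)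
  have hde : ∀ (φ : Dual (ZMod 2) (Fin m → ZMod 2)) (w : Fin m → ZMod 2),
      (de.symm φ) ⬝ᵥ w = φ w := by
    intro φ w
    have : de (de.symm φ) w = φ w := by rw [LinearEquiv.apply_symm_apply]
    exact this
  have hB : ∀ φ ∈ A.dualAnnihilator, (de.symm φ) ᵥ* theta h c ∈ B := by
    intro φ hφ
    apply vecMul_Uvis _ _ _ hU
    intro a ha
    rw [hde]
    exact (Submodule.mem_dualAnnihilator φ).1 hφ a ha
  let ψ : A.dualAnnihilator →ₗ[ZMod 2] B :=
    { toFun := fun φ => ⟨(de.symm φ.1) ᵥ* theta h c, hB φ.1 φ.2⟩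
      map_add' := by
        intro φ φ'
        apply Subtype.ext
        show (de.symm (φ.1 + φ'.1)) ᵥ* theta h c = _
        rw [map_add, add_vecMul]
        rfl
      map_smul' := by
        intro a φ
        apply Subtype.ext
        show (de.symm (a • φ.1)) ᵥ* theta h c = _
        rw [map_smul, smul_vecMul]
        rfl }
  let K2 : Submodule (ZMod 2) (Dual (ZMod 2) (Fin m → ZMod 2)) :=
    (LinearMap.ker ψ).map A.dualAnnihilator.subtype
  have h1 : finrank (ZMod 2) K2 = finrank (ZMod 2) (LinearMap.ker ψ) :=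
    LinearEquiv.finrank_eq (Submodule.equivMapOfInjective _ (Submodule.injective_subtype _)
      (LinearMap.ker ψ)).symm
  have h2 := LinearMap.finrank_range_add_finrank_ker ψ
  have h3 : finrank (ZMod 2) (LinearMap.range ψ) ≤ finrank (ZMod 2) B :=
    Submodule.finrank_le _
  have h4 := Subspace.finrank_add_finrank_dualAnnihilator_eq A
  have h5 := Subspace.finrank_add_finrank_dualCoannihilator_eq K2
  have h6 : finrank (ZMod 2) K2.dualCoannihilator ≤ d := by omega
  have h7 : ∀ w : Fin m → ZMod 2, c w ≠ 0 → w ∈ K2.dualCoannihilator := by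
    intro w hw
    rw [Submodule.mem_dualCoannihilator]
    rintro _ ⟨φ, hφ, rfl⟩
    have hφ' : (de.symm φ.1) ᵥ* theta h c = 0 := by
      have := LinearMap.mem_ker.1 hφ
      exact congrArg Subtype.val this
    rw [vecMul_theta] at hφ'
    have h8 : (fun w => c w * ((de.symm φ.1) ⬝ᵥ w)) = 0 := by
      apply hind _ _ hφ'
      refine le_trans (Finset.card_le_card ?_) hc
      intro v hv
      simp only [mem_filter, mem_univ, true_and] at hv ⊢
      intro h9
      apply hv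
      rw [h9, zero_mul]
    have h9 := congrFun h8 w
    simp only [Pi.zero_apply, mul_eq_zero] at h9
    rcases h9 with h9 | h9
    · exact absurd h9 hw
    · rw [hde] at h9
      exact h9
  have h8 : wt c ≤ Nat.card K2.dualCoannihilator := by
    rw [wt, ← Fintype.card_coe, ← Nat.card_eq_fintype_card]
    apply Nat.card_le_card_of_injective
      (fun w : (univ.filter fun w => c w ≠ 0 : Finset _) =>
        (⟨w.1, h7 w.1 (Finset.mem_filter.1 w.2).2⟩ : K2.dualCoannihilator))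
    intro a b hab
    apply Subtype.ext
    exact congrArg (fun t : K2.dualCoannihilator => (t : Fin m → ZMod 2)) hab
  have h9 : Nat.card K2.dualCoannihilator = 2 ^ finrank (ZMod 2) K2.dualCoannihilator := by
    rw [Module.natCard_eq_pow_finrank (K := ZMod 2), Nat.card_zmod]
  rw [h9] at h8
  exact le_trans h8 (le_trans (Nat.pow_le_pow_right (by norm_num) h6) hs)

end

end Pool.Agent.H39.SRGWL
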