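import Pool.Agent.H39.SRGWL.SRG
import Pool.Agent.H39.SRGWL.Ext

/-!
The back-and-forth relation between the graphs attached to two functions `τ`, `τ'`.
-/

namespace Pool.Agent.H39.SRGWL

open Finset Matrix Module

/-- half of the coordinates of a vertex. -/
abbrev HV (m z : ℕ) := (Fin m → ZMod 2) × (Fin z → ZMod 2)

/-- the standard pairing. -/
def bpair (m z : ℕ) : HV m z →+ HV m z →+ ZMod 2 :=
  AddMonoidHom.mk' (fun u => AddMonoidHom.mk' (fun v => u.1 ⬝ᵥ v.1 + u.2 ⬝ᵥ v.2)
    (by
      intro a b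
      simp only [Prod.fst_add, Prod.snd_add, dotProduct_add]
      ring))
    (by
      intro a b
      ext v
      simp only [AddMonoidHom.mk'_apply, AddMonoidHom.add_apply, Prod.fst_add, Prod.snd_add,
        add_dotProduct]
      ring)

theorem bpair_apply {m z : ℕ} (u v : HV m z) : bpair m z u v = u.1 ⬝ᵥ v.1 + u.2 ⬝ᵥ v.2 := rfl

/-- the second part of the bent function. -/
def gfun {m z : ℕ} (h : (Fin m → ZMod 2) → (Fin z → ZMod 2)) (τ : (Fin m → ZMod 2) → ZMod 2)
    (y : HV m z) : ZMod 2 := h y.1 ⬝ᵥ y.2 + τ y.1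

/-- the graph attached to `h` and `τ`. -/
def GT {m z : ℕ} (h : (Fin m → ZMod 2) → (Fin z → ZMod 2)) (τ : (Fin m → ZMod 2) → ZMod 2) :
    SimpleGraph (HV m z × HV m z) := graphMM (bpair m z) (gfun h τ)

/-- the function defining adjacency. -/
def ff {m z : ℕ} (h : (Fin m → ZMod 2) → (Fin z → ZMod 2)) (τ : (Fin m → ZMod 2) → ZMod 2)
    (u : HV m z × HV m z) : ZMod 2 :=
  u.1.1 ⬝ᵥ u.2.1 + u.1.2 ⬝ᵥ u.2.2 + (h u.2.1 ⬝ᵥ u.2.2 + τ u.2.1)

theorem GT_adj {m z : ℕ} (h : (Fin m → ZMod 2) → (Fin z → ZMod 2))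
    (τ : (Fin m → ZMod 2) → ZMod 2) (u v : HV m z × HV m z) :
    (GT h τ).Adj u v ↔ u ≠ v ∧ ff h τ (u + v) = 1 := Iff.rfl

/-- the linear map attached to a matrix. -/
def actM {m z : ℕ} (M : Matrix (Fin m) (Fin z) (ZMod 2)) :
    (HV m z × HV m z) →ₗ[ZMod 2] (HV m z × HV m z) where
  toFun u := ((u.1.1 + M *ᵥ u.1.2, u.1.2), (u.2.1, u.2.2 + u.2.1 ᵥ* M))
  map_add' u v := by
    ext i
    · simp only [Prod.fst_add, Prod.snd_add, mulVec_add, Pi.add_apply]
      ring
    · rfl
    · rfl
    · simp only [Prod.fst_add, Prod.snd_add, add_vecMul, Pi.add_apply]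
      ring
  map_smul' a u := by
    ext i
    · simp [mulVec_smul]
    · rfl
    · rfl
    · simp [smul_vecMul]

theorem actM_apply {m z : ℕ} (M : Matrix (Fin m) (Fin z) (ZMod 2)) (u : HV m z × HV m z) :
    actM M u = ((u.1.1 + M *ᵥ u.1.2, u.1.2), (u.2.1, u.2.2 + u.2.1 ᵥ* M)) := rfl

theorem actM_congr {m z : ℕ} (M M' : Matrix (Fin m) (Fin z) (ZMod 2)) (u : HV m z × HV m z)
    (h1 : M *ᵥ u.1.2 = M' *ᵥ u.1.2) (h2 : u.2.1 ᵥ* M = u.2.1 ᵥ* M') :
    actM M u = actM M' u := by
  rw [actM_apply, actM_apply, h1, h2]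

theorem actM_injective {m z : ℕ} (M : Matrix (Fin m) (Fin z) (ZMod 2)) :
    Function.Injective (actM M) := by
  rw [← LinearMap.ker_eq_bot, LinearMap.ker_eq_bot']
  rintro ⟨⟨ω, η⟩, ⟨w, ζ⟩⟩ h
  rw [actM_apply] at h
  simp only [Prod.mk_eq_zero] at h
  obtain ⟨⟨h1, h2⟩, h3, h4⟩ := h
  subst h2 h3
  simp only [mulVec_zero, add_zero, zero_vecMul] at h1 h4
  rw [h1, h4]
  rfl

theorem ff_act {m z : ℕ} (h : (Fin m → ZMod 2) → (Fin z → ZMod 2))
    (τ τ' : (Fin m → ZMod 2) → ZMod 2) (M : Matrix (Fin m) (Fin z) (ZMod 2))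
    (u : HV m z × HV m z)
    (hu : u.2.1 ⬝ᵥ (M *ᵥ h u.2.1) = τ u.2.1 + τ' u.2.1) :
    ff h τ' (actM M u) = ff h τ u := by
  obtain ⟨⟨ω, η⟩, ⟨w, ζ⟩⟩ := u
  simp only at hu
  simp only [ff, actM_apply]
  rw [add_dotProduct, dotProduct_add, dotProduct_add]
  have e1 : M *ᵥ η ⬝ᵥ w = η ⬝ᵥ w ᵥ* M := by
    rw [dotProduct_comm, dotProduct_mulVec, dotProduct_comm]
  have e2 : h w ⬝ᵥ w ᵥ* M = w ⬝ᵥ (M *ᵥ h w) := by
    rw [dotProduct_mulVec, dotProduct_comm]
  rw [e1, e2, hu]
  have e3 : (η ⬝ᵥ w ᵥ* M) + (η ⬝ᵥ w ᵥ* M) = 0 := CharTwo.add_self_eq_zero _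
  have e4 : τ' w + τ' w = 0 := CharTwo.add_self_eq_zero _
  linear_combination e3 + e4

/-- the functional on matrices attached to a matrix. -/
def lamb {m z : ℕ} (M : Matrix (Fin m) (Fin z) (ZMod 2)) :
    Matrix (Fin m) (Fin z) (ZMod 2) →ₗ[ZMod 2] ZMod 2 where
  toFun N := ∑ i, ∑ j, M i j * N i j
  map_add' N N' := by
    simp only [Matrix.add_apply, mul_add, Finset.sum_add_distrib]
  map_smul' a N := by
    simp only [Matrix.smul_apply, smul_eq_mul, RingHom.id_apply, Finset.mul_sum]
    refine Finset.sum_congr rfl fun i _ => Finset.sum_congr rfl fun j _ => ?_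
    ring

theorem lamb_vecMulVec {m z : ℕ} (M : Matrix (Fin m) (Fin z) (ZMod 2))
    (w : Fin m → ZMod 2) (e : Fin z → ZMod 2) :
    lamb M (vecMulVec w e) = w ⬝ᵥ (M *ᵥ e) := by
  show ∑ i, ∑ j, M i j * (w i * e j) = ∑ i, w i * ∑ j, M i j * e j
  refine Finset.sum_congr rfl fun i _ => ?_
  rw [Finset.mul_sum]
  refine Finset.sum_congr rfl fun j _ => ?_
  ring

theorem exists_lamb {m z : ℕ} (Λ : Matrix (Fin m) (Fin z) (ZMod 2) →ₗ[ZMod 2] ZMod 2) :
    ∃ M, Λ = lamb M := by
  refine ⟨fun i j => Λ (Matrix.single i j 1), ?_⟩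
  apply LinearMap.ext
  intro N
  conv_lhs => rw [matrix_eq_sum_single N]
  rw [map_sum]
  refine Finset.sum_congr rfl fun i _ => ?_
  rw [map_sum]
  refine Finset.sum_congr rfl fun j _ => ?_
  have : Matrix.single i j (N i j) = N i j • Matrix.single i j (1 : ZMod 2) := by
    rw [Matrix.smul_single, smul_eq_mul, mul_one]
  rw [this, map_smul, smul_eq_mul, mul_comm]

section

variable {m z k : ℕ} (i0 : Fin k)

/-- span of the differences of the third coordinates -/
def AS (S : Fin k → HV m z × HV m z) : Submodule (ZMod 2) (Fin m → ZMod 2) :=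
  Submodule.span (ZMod 2) (Set.range fun i => (S i + S i0).2.1)

/-- span of the differences of the second coordinates -/
def BS (S : Fin k → HV m z × HV m z) : Submodule (ZMod 2) (Fin z → ZMod 2) :=
  Submodule.span (ZMod 2) (Set.range fun i => (S i + S i0).1.2)

/-- The back-and-forth relation. -/
def Rel (s : ℕ) (h : (Fin m → ZMod 2) → (Fin z → ZMod 2)) (σ : (Fin m → ZMod 2) → ZMod 2)
    (S S' : Fin k → HV m z × HV m z) : Prop :=
  ∃ M : Matrix (Fin m) (Fin z) (ZMod 2),
    Good s (theta h) σ (lamb M) (Uvis (AS i0 S) (BS i0 S)) ∧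
    ∀ i, S' i + S' i0 = actM M (S i + S i0)

theorem two_HV (x : HV m z × HV m z) : x + x = 0 := by
  ext i <;> exact CharTwo.add_self_eq_zero _

theorem add_eq_diff (a b c : HV m z × HV m z) : a + b = (a + c) + (b + c) := by
  have := two_HV c
  calc a + b = a + b + 0 := by rw [add_zero]
    _ = a + b + (c + c) := by rw [this]
    _ = (a + c) + (b + c) := by abel

theorem eq_iff_add (a b : HV m z × HV m z) : a = b ↔ a + b = 0 := by
  constructor
  · rintro rfl
    exact two_HV a
  · intro h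
    have := two_HV b
    have h2 : a + b = b + b := by rw [h, this]
    exact add_right_cancel h2

theorem rel_diff
    {M : Matrix (Fin m) (Fin z) (ZMod 2)} {S S' : Fin k → HV m z × HV m z}
    (hM : ∀ i, S' i + S' i0 = actM M (S i + S i0)) (i j : Fin k) :
    S' i + S' j = actM M (S i + S j) := by
  rw [add_eq_diff (S' i) (S' j) (S' i0), add_eq_diff (S i) (S j) (S i0), map_add, hM, hM]

theorem rel_iso (s : ℕ) (hs : 1 ≤ s) (h : (Fin m → ZMod 2) → (Fin z → ZMod 2))
    (τ τ' : (Fin m → ZMod 2) → ZMod 2) (S S' : Fin k → HV m z × HV m z)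
    (hR : Rel i0 s h (τ + τ') S S') (i j : Fin k) :
    (S i = S j ↔ S' i = S' j) ∧ ((GT h τ).Adj (S i) (S j) ↔ (GT h τ').Adj (S' i) (S' j)) := by
  classical
  obtain ⟨M, hg, hM⟩ := hR
  have hd := rel_diff i0 hM i j
  have h1 : S i = S j ↔ S' i = S' j := by
    rw [eq_iff_add, eq_iff_add (S' i), hd]
    constructor
    · intro h
      rw [h, map_zero]
    · intro h
      apply actM_injective M
      rw [h, map_zero]
  refine ⟨h1, ?_⟩
  rw [GT_adj, GT_adj, hd, ff_act h τ τ' M, Ne, Ne, h1]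
  -- goodness for the unit vector
  have hw : (S i + S j).2.1 ∈ AS i0 S := by
    rw [add_eq_diff (S i) (S j) (S i0)]
    exact Submodule.add_mem _ (Submodule.subset_span ⟨i, rfl⟩) (Submodule.subset_span ⟨j, rfl⟩)
  have hc := hg (Pi.single (S i + S j).2.1 1) (by
    refine le_trans ?_ hs
    refine le_trans (Finset.card_le_card (t := {(S i + S j).2.1}) ?_) (by simp)
    intro v hv
    simp only [mem_filter, mem_univ, true_and] at hv
    rw [Finset.mem_singleton]
    by_contra hne
    exact hv (Pi.single_eq_of_ne hne _)) (by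
    have : theta h (Pi.single (S i + S j).2.1 1)
        = vecMulVec (S i + S j).2.1 (h (S i + S j).2.1) := by
      show ∑ w, (Pi.single (S i + S j).2.1 1 : (Fin m → ZMod 2) → ZMod 2) w •
        vecMulVec w (h w) = _
      rw [Finset.sum_eq_single (S i + S j).2.1]
      · rw [Pi.single_eq_same, one_smul]
      · intro b _ hb
        rw [Pi.single_eq_of_ne hb, zero_smul]
      · intro hb
        exact absurd (Finset.mem_univ _) hb
    rw [this]
    exact Submodule.subset_span (Or.inl ⟨_, hw, _, rfl⟩))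
  have e1 : theta h (Pi.single (S i + S j).2.1 1)
      = vecMulVec (S i + S j).2.1 (h (S i + S j).2.1) := by
    show ∑ w, (Pi.single (S i + S j).2.1 1 : (Fin m → ZMod 2) → ZMod 2) w •
      vecMulVec w (h w) = _
    rw [Finset.sum_eq_single (S i + S j).2.1]
    · rw [Pi.single_eq_same, one_smul]
    · intro b _ hb
      rw [Pi.single_eq_of_ne hb, zero_smul]
    · intro hb
      exact absurd (Finset.mem_univ _) hb
  rw [e1, lamb_vecMulVec, single_dotProduct, one_mul] at hc
  exact hc

theorem finrank_sup_span_le {n : ℕ} (A : Submodule (ZMod 2) (Fin n → ZMod 2)) (d : ℕ)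
    (hA : finrank (ZMod 2) A ≤ d) (w : Fin n → ZMod 2) :
    finrank (ZMod 2) (A ⊔ Submodule.span (ZMod 2) {w} : Submodule (ZMod 2) (Fin n → ZMod 2))
      ≤ d + 1 := by
  refine le_trans (Submodule.finrank_add_le_finrank_add_finrank _ _) ?_
  have : finrank (ZMod 2) (Submodule.span (ZMod 2) {w}) ≤ 1 := by
    have := finrank_span_le_card (R := ZMod 2) ({w} : Set (Fin n → ZMod 2))
    simpa using this
  omega

theorem rel_ext (s : ℕ) (hs : 2 ^ (2 * (k + 1)) ≤ s)
    (h : (Fin m → ZMod 2) → (Fin z → ZMod 2))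
    (hind : ∀ c : (Fin m → ZMod 2) → ZMod 2, wt c ≤ 2 * s → ∑ w, c w • h w = 0 → c = 0)
    (σ : (Fin m → ZMod 2) → ZMod 2) (S S' : Fin k → HV m z × HV m z)
    (hR : Rel i0 s h σ S S') :
    ∃ β : (HV m z × HV m z) ≃ (HV m z × HV m z), ∀ (x : HV m z × HV m z) (c : Fin k),
      Rel i0 s h σ (Function.update S c x) (Function.update S' c (β x)) := by
  classical
  obtain ⟨M, hg, hM⟩ := hR
  -- choice of extensions
  have hext : ∀ p : (Fin m → ZMod 2) × (Fin z → ZMod 2),
      ∃ M' : Matrix (Fin m) (Fin z) (ZMod 2),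
        (∀ a ∈ AS i0 S, a ᵥ* M' = a ᵥ* M) ∧ (∀ b ∈ BS i0 S, M' *ᵥ b = M *ᵥ b) ∧
        Good s (theta h) σ (lamb M') (Uvis (AS i0 S ⊔ Submodule.span (ZMod 2) {p.1})
          (BS i0 S ⊔ Submodule.span (ZMod 2) {p.2})) := by
    intro p
    have hdA : finrank (ZMod 2) (AS i0 S) ≤ k := by
      have := finrank_range_le_card (R := ZMod 2) (fun i => (S i + S i0).2.1)
      rwa [Fintype.card_fin] at this
    have hdB : finrank (ZMod 2) (BS i0 S) ≤ k := by
      have := finrank_range_le_card (R := ZMod 2) (fun i => (S i + S i0).1.2)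
      rwa [Fintype.card_fin] at this
    obtain ⟨Λ', h1, h2⟩ := good_ext s (theta h) σ (lamb M) (Uvis (AS i0 S) (BS i0 S))
      (Uvis (AS i0 S ⊔ Submodule.span (ZMod 2) {p.1})
          (BS i0 S ⊔ Submodule.span (ZMod 2) {p.2}))
      (fun c hc hU => closed_of_indep h s (2 * (k + 1)) hind hs _ _ (by
        have := finrank_sup_span_le _ k hdA p.1
        have := finrank_sup_span_le _ k hdB p.2
        omega) c hc hU) hg
    obtain ⟨M', rfl⟩ := exists_lamb Λ'
    refine ⟨M', ?_, ?_, h2⟩
    · intro a ha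
      apply dotProduct_eq
      intro e
      have := h1 (vecMulVec a e) (Submodule.subset_span (Or.inl ⟨a, ha, e, rfl⟩))
      rwa [lamb_vecMulVec, lamb_vecMulVec, dotProduct_mulVec, dotProduct_mulVec] at this
    · intro b hb
      apply dotProduct_eq
      intro w
      have := h1 (vecMulVec w b) (Submodule.subset_span (Or.inr ⟨w, b, hb, rfl⟩))
      rw [lamb_vecMulVec, lamb_vecMulVec] at this
      rw [dotProduct_comm, this, dotProduct_comm]
  choose E hE1 hE2 hE3 using hext
  let mm : HV m z × HV m z → Matrix (Fin m) (Fin z) (ZMod 2) := fun x =>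
    E ((x + S i0).2.1, (x + S i0).1.2)
  let bf : HV m z × HV m z → HV m z × HV m z := fun x => S' i0 + actM (mm x) (x + S i0)
  have hinj : Function.Injective bf := by
    intro x y hxy
    have h1 : actM (mm x) (x + S i0) = actM (mm y) (y + S i0) := add_left_cancel hxy
    have h2 : (x + S i0).2.1 = (y + S i0).2.1 := congrArg (fun u => u.2.1) h1
    have h3 : (x + S i0).1.2 = (y + S i0).1.2 := congrArg (fun u => u.1.2) h1
    have h4 : mm x = mm y := by
      show E _ = E _
      rw [h2, h3]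
    rw [h4] at h1
    exact add_right_cancel (actM_injective _ h1)
  refine ⟨Equiv.ofBijective bf (Finite.injective_iff_bijective.1 hinj), fun x c => ?_⟩
  -- the relation between points and images, relative to the base point
  have hbase : ∀ i, (Function.update S' c (bf x)) i + S' i0
      = actM (mm x) ((Function.update S c x) i + S i0) := by
    intro i
    by_cases hi : i = c
    · subst hi
      rw [Function.update_self, Function.update_self]
      show S' i0 + actM (mm x) (x + S i0) + S' i0 = _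
      have := two_HV (S' i0)
      calc S' i0 + actM (mm x) (x + S i0) + S' i0
          = actM (mm x) (x + S i0) + (S' i0 + S' i0) := by abel
        _ = actM (mm x) (x + S i0) := by rw [this, add_zero]
    · rw [Function.update_of_ne hi, Function.update_of_ne hi, hM]
      symm
      apply actM_congr
      · exact hE2 _ _ (Submodule.subset_span ⟨i, rfl⟩)
      · exact hE1 _ _ (Submodule.subset_span ⟨i, rfl⟩)
  have hA : ∀ i, ((Function.update S c x) i + S i0).2.1
      ∈ AS i0 S ⊔ Submodule.span (ZMod 2) {(x + S i0).2.1} := by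
    intro i
    by_cases hi : i = c
    · subst hi
      rw [Function.update_self]
      exact Submodule.mem_sup_right (Submodule.mem_span_singleton_self _)
    · rw [Function.update_of_ne hi]
      exact Submodule.mem_sup_left (Submodule.subset_span ⟨i, rfl⟩)
  have hB : ∀ i, ((Function.update S c x) i + S i0).1.2
      ∈ BS i0 S ⊔ Submodule.span (ZMod 2) {(x + S i0).1.2} := by
    intro i
    by_cases hi : i = c
    · subst hi
      rw [Function.update_self]
      exact Submodule.mem_sup_right (Submodule.mem_span_singleton_self _)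
    · rw [Function.update_of_ne hi]
      exact Submodule.mem_sup_left (Submodule.subset_span ⟨i, rfl⟩)
  refine ⟨mm x, Good.mono (hE3 ((x + S i0).2.1, (x + S i0).1.2)) (Uvis_mono ?_ ?_), ?_⟩
  · rw [AS, Submodule.span_le]
    rintro _ ⟨i, rfl⟩
    show ((Function.update S c x) i + (Function.update S c x) i0).2.1 ∈ _
    rw [add_eq_diff ((Function.update S c x) i) ((Function.update S c x) i0) (S i0)]
    exact Submodule.add_mem _ (hA i) (hA i0)
  · rw [BS, Submodule.span_le]
    rintro _ ⟨i, rfl⟩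
    show ((Function.update S c x) i + (Function.update S c x) i0).1.2 ∈ _
    rw [add_eq_diff ((Function.update S c x) i) ((Function.update S c x) i0) (S i0)]
    exact Submodule.add_mem _ (hB i) (hB i0)
  · intro i
    show (Function.update S' c (bf x)) i + (Function.update S' c (bf x)) i0 = _
    rw [add_eq_diff ((Function.update S' c (bf x)) i) ((Function.update S' c (bf x)) i0) (S' i0),
      hbase, hbase, ← map_add, ← add_eq_diff]

end

/-- The graphs attached to different functions `τ`, `τ'` vanishing at `0` are not distinguished. -/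
theorem GT_wlIndist {m z k : ℕ} (hk : 1 ≤ k) (s : ℕ) (hs : 2 ^ (2 * (k + 1)) ≤ s)
    (h : (Fin m → ZMod 2) → (Fin z → ZMod 2))
    (hind : ∀ c : (Fin m → ZMod 2) → ZMod 2, wt c ≤ 2 * s → ∑ w, c w • h w = 0 → c = 0)
    (τ τ' : (Fin m → ZMod 2) → ZMod 2) (h0 : τ 0 = 0) (h0' : τ' 0 = 0) :
    WLIndist k (GT h τ) (GT h τ') := by
  have hs1 : 1 ≤ s := le_trans Nat.one_le_two_pow hs
  let i0 : Fin k := ⟨0, hk⟩
  apply wlIndist_of_rel (GT h τ) (GT h τ') k (Rel i0 s h (τ + τ'))
    (fun S S' hR i j => rel_iso i0 s hs1 h τ τ' S S' hR i j)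
    (fun S S' hR => rel_ext i0 s hs h hind (τ + τ') S S' hR)
    (fun _ => 0) (fun _ => 0)
  refine ⟨0, ?_, fun i => ?_⟩
  · intro c hc hU
    have hAB : Uvis (AS i0 fun _ => (0 : HV m z × HV m z))
        (BS i0 fun _ => (0 : HV m z × HV m z)) = ⊥ := by
      have hA : AS i0 (fun _ => (0 : HV m z × HV m z)) = ⊥ := by
        rw [AS, Submodule.span_eq_bot]
        rintro _ ⟨i, rfl⟩
        simp
      have hB : BS i0 (fun _ => (0 : HV m z × HV m z)) = ⊥ := by
        rw [BS, Submodule.span_eq_bot]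
        rintro _ ⟨i, rfl⟩
        simp
      rw [hA, hB, Uvis, Submodule.span_eq_bot]
      rintro N (⟨a, ha, e, rfl⟩ | ⟨w, b, hb, rfl⟩)
      · rw [Submodule.mem_bot] at ha
        rw [ha, zero_vecMulVec]
      · rw [Submodule.mem_bot] at hb
        subst hb
        ext i j
        show w i * 0 = 0
        rw [mul_zero]
    rw [hAB, Submodule.mem_bot] at hU
    -- the support of `c` is contained in `{0}`
    have hsupp : ∀ w, w ≠ 0 → c w = 0 := by
      intro w hw
      obtain ⟨φ, hφ⟩ : ∃ φ : Fin m → ZMod 2, φ ⬝ᵥ w ≠ 0 := by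
        by_contra hcon
        push Not at hcon
        apply hw
        apply dotProduct_eq
        intro u
        rw [zero_dotProduct, dotProduct_comm, hcon]
      have h1 : φ ᵥ* theta h c = 0 := by rw [hU, vecMul_zero]
      rw [vecMul_theta] at h1
      have h2 : (fun w => c w * (φ ⬝ᵥ w)) = 0 := by
        apply hind _ _ h1
        refine le_trans (Finset.card_le_card ?_) (show wt c ≤ 2 * s by omega)
        intro v hv
        simp only [mem_filter, mem_univ, true_and] at hv ⊢
        intro h9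
        apply hv
        rw [h9, zero_mul]
      have h3 := congrFun h2 w
      simp only [Pi.zero_apply, mul_eq_zero] at h3
      rcases h3 with h3 | h3
      · exact h3
      · exact absurd h3 hφ
    rw [hU, map_zero]
    symm
    apply Finset.sum_eq_zero
    intro w _
    by_cases hw : w = 0
    · subst hw
      rw [Pi.add_apply, h0, h0', add_zero, mul_zero]
    · rw [hsupp w hw, zero_mul]
  · simp

end Pool.Agent.H39.SRGWL
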