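import Pool.Agent.H39.SRGWL.Ext

/-!
Existence of maps all of whose small families of values are linearly independent.
-/

namespace Pool.Agent.H39.SRGWL

open Finset Polynomial

theorem exists_indep (m r : ℕ) (hm : m ≠ 0) :
    ∃ h : (Fin m → ZMod 2) → (Fin (r * m) → ZMod 2),
      ∀ c : (Fin m → ZMod 2) → ZMod 2, wt c ≤ r → ∑ w, c w • h w = 0 → c = 0 := by
  classical
  have : Fact (Nat.Prime 2) := ⟨Nat.prime_two⟩
  have hfr : Module.finrank (ZMod 2) (GaloisField 2 m) = m := GaloisField.finrank 2 hm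
  let e : (Fin m → ZMod 2) ≃ₗ[ZMod 2] GaloisField 2 m :=
    LinearEquiv.ofFinrankEq _ _ (by rw [hfr]; simp)
  let e2 : (Fin r → GaloisField 2 m) ≃ₗ[ZMod 2] (Fin (r * m) → ZMod 2) :=
    LinearEquiv.ofFinrankEq _ _ (by
      rw [Module.finrank_pi_fintype]
      simp [hfr])
  refine ⟨fun w => e2 fun i => (e w) ^ (i : ℕ), ?_⟩
  intro c hc hsum
  have h1 : ∑ w, c w • (fun i : Fin r => (e w) ^ (i : ℕ)) = 0 := by
    apply e2.injective
    rw [map_zero, map_sum, ← hsum]
    refine Finset.sum_congr rfl fun w _ => ?_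
    rw [map_smul]
  have h2 : ∀ i < r, ∑ w, c w • (e w) ^ i = 0 := by
    intro i hi
    have := congrFun h1 ⟨i, hi⟩
    simpa using this
  by_contra hne
  obtain ⟨w0, hw0⟩ : ∃ w0, c w0 ≠ 0 := by
    by_contra hcon
    push Not at hcon
    exact hne (funext hcon)
  let S : Finset (Fin m → ZMod 2) := univ.filter fun w => c w ≠ 0
  have hS : w0 ∈ S := by simp [S, hw0]
  let P : (GaloisField 2 m)[X] := ∏ w ∈ S.erase w0, (X - C (e w))
  have hdeg : P.natDegree < r := by
    have e1 : P.natDegree = (S.erase w0).card := natDegree_finsetProd_X_sub_C_eq_card _ _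
    rw [e1, Finset.card_erase_of_mem hS]
    have : 0 < S.card := Finset.card_pos.2 ⟨w0, hS⟩
    have : S.card ≤ r := hc
    omega
  have h3 : ∑ w, c w • P.eval (e w) = 0 := by
    have e1 : ∀ w, P.eval (e w) = ∑ i ∈ range r, P.coeff i * (e w) ^ i := fun w =>
      eval_eq_sum_range' hdeg _
    calc ∑ w, c w • P.eval (e w) = ∑ w, ∑ i ∈ range r, P.coeff i * (c w • (e w) ^ i) := by
          refine Finset.sum_congr rfl fun w _ => ?_
          rw [e1, Finset.smul_sum]
          refine Finset.sum_congr rfl fun i _ => ?_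
          rw [mul_smul_comm]
      _ = ∑ i ∈ range r, P.coeff i * ∑ w, c w • (e w) ^ i := by
          rw [Finset.sum_comm]
          refine Finset.sum_congr rfl fun i _ => ?_
          rw [Finset.mul_sum]
      _ = 0 := by
          apply Finset.sum_eq_zero
          intro i hi
          rw [h2 i (Finset.mem_range.1 hi), mul_zero]
  rw [Finset.sum_eq_single w0] at h3
  · have h4 : P.eval (e w0) ≠ 0 := by
      rw [eval_prod]
      apply Finset.prod_ne_zero_iff.2
      intro w hw
      rw [eval_sub, eval_X, eval_C, sub_ne_zero]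
      intro heq
      exact (Finset.mem_erase.1 hw).1 (e.injective heq).symm
    rcases smul_eq_zero.1 h3 with h | h
    · exact hw0 h
    · exact h4 h
  · intro w _ hw
    by_cases hcw : c w = 0
    · rw [hcw, zero_smul]
    · have : P.eval (e w) = 0 := by
        rw [eval_prod]
        apply Finset.prod_eq_zero (i := w)
        · rw [Finset.mem_erase]
          exact ⟨hw, by simp [S, hcw]⟩
        · simp
      rw [this, smul_zero]
  · intro h
    exact absurd (Finset.mem_univ _) h

theorem exists_big (C : ℕ) : ∃ m' : ℕ, (C * (m' + 3)) * (C * (m' + 3)) < 2 ^ m' := by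
  -- take `m' = 4 s` with `s` large
  let s := C + 5
  refine ⟨4 * s, ?_⟩
  have h1 : C < 2 ^ s := lt_of_lt_of_le Nat.lt_two_pow_self
    (Nat.pow_le_pow_right (by norm_num) (Nat.le_add_right C 5))
  have h2 : ∀ n, 4 * (n + 5) + 3 < 2 ^ (n + 5) := by
    intro n
    induction n with
    | zero => norm_num
    | succ n ih =>
      have : 2 ^ (n + 1 + 5) = 2 * 2 ^ (n + 5) := by ring
      rw [this]
      omega
  have h3 : C * (4 * s + 3) < 2 ^ s * 2 ^ s := by
    have := h2 C
    calc C * (4 * s + 3) ≤ 2 ^ s * (4 * s + 3) := Nat.mul_le_mul_right _ h1.le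
      _ < 2 ^ s * 2 ^ s := Nat.mul_lt_mul_of_pos_left this (by positivity)
  calc (C * (4 * s + 3)) * (C * (4 * s + 3)) < (2 ^ s * 2 ^ s) * (2 ^ s * 2 ^ s) :=
        Nat.mul_lt_mul'' h3 h3
    _ = 2 ^ (4 * s) := by
        rw [← pow_add, ← pow_add]
        congr 1
        ring

end Pool.Agent.H39.SRGWL
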