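import Pool.Agent.H39.SRGWL.NonIso
import Pool.Agent.H39.SRGWL.Vander

/-!
The Weisfeiler-Leman dimension of strongly regular graphs is unbounded.

The graphs are Cayley graphs of Maiorana-McFarland bent functions
`(ω, η, w, ζ) ↦ ⟨ω, w⟩ + ⟨η, ζ⟩ + ⟨h w, ζ⟩ + τ w` over the field with two elements, where any
few values of `h` are linearly independent. Duplicator wins the bijective pebble game between
the graphs of `τ` and `τ'` by maintaining a bilinear form that is only specified on the span of
the pebbled differences; a counting argument shows that the graphs are not all isomorphic.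
-/

namespace Pool.Agent.H39.SRGWL.Main

open Pool.Agent.H39.SRGWL

/-- For every `k ≥ 2` there are two non-isomorphic strongly regular graphs (with the same
parameters) that the `k`-dimensional Weisfeiler-Leman method does not distinguish. -/
theorem result (k : ℕ) (hk : 2 ≤ k) :
    ∃ (V : Type) (_ : Fintype V) (_ : DecidableEq V) (G H : SimpleGraph V)
      (_ : DecidableRel G.Adj) (_ : DecidableRel H.Adj) (n d l m : ℕ),
      G.IsSRGWith n d l m ∧ H.IsSRGWith n d l m ∧ ¬ Nonempty (G ≃g H) ∧ WLIndist k G H := by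
  classical
  let s : ℕ := 2 ^ (2 * (k + 1))
  obtain ⟨m', hm'⟩ := exists_big (2 * (1 + 2 * s) + 1)
  obtain ⟨h, hind⟩ := exists_indep (m' + 2) (2 * s) (by omega)
  have hbig : (2 * (m' + 2 + 2 * s * (m' + 2))) * (2 * (m' + 2 + 2 * s * (m' + 2)) + 1)
      < 2 ^ m' := by
    refine lt_of_le_of_lt (Nat.mul_le_mul ?_ ?_) hm' <;> nlinarith
  obtain ⟨t, ht⟩ := exists_nonIso h hbig
  have two : ∀ x : HV (m' + 2) (2 * s * (m' + 2)), x + x = 0 := by
    intro x
    ext i <;> exact CharTwo.add_self_eq_zero _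
  have hl : ∀ x : HV (m' + 2) (2 * s * (m' + 2)), x ≠ 0 → ∃ y, bpair _ _ x y = 1 := by
    rintro ⟨x1, x2⟩ hx
    have h01 : ∀ a : ZMod 2, a ≠ 0 → a = 1 := by decide
    by_cases h1 : x1 = 0
    · have h2 : x2 ≠ 0 := by
        rintro rfl
        exact hx (by rw [h1]; rfl)
      obtain ⟨i, hi⟩ := Function.ne_iff.1 h2
      refine ⟨(0, Pi.single i 1), ?_⟩
      rw [bpair_apply]
      simpa using h01 _ hi
    · obtain ⟨i, hi⟩ := Function.ne_iff.1 h1
      refine ⟨(Pi.single i 1, 0), ?_⟩
      rw [bpair_apply]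
      simpa using h01 _ hi
  have hr : ∀ y : HV (m' + 2) (2 * s * (m' + 2)), y ≠ 0 → ∃ x, bpair _ _ x y = 1 := by
    intro y hy
    obtain ⟨x, hx⟩ := hl y hy
    refine ⟨x, ?_⟩
    rw [bpair_apply, dotProduct_comm, dotProduct_comm x.2] 
    exact hx
  have g0 : ∀ t : (Fin m' → ZMod 2) → ZMod 2, gfun h (tau t) 0 = 0 := by
    intro t
    simp [gfun, tau_zero]
  have hG := fun t => graphMM_isSRG two (bpair _ _) hl hr (gfun h (tau t)) (g0 t)
  refine ⟨_, inferInstance, inferInstance, GT h (tau 0), GT h (tau t), fun _ _ =>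
    Classical.propDecidable _, fun _ _ => Classical.propDecidable _, _, _, _, _, hG 0, hG t,
    ht, ?_⟩
  exact GT_wlIndist (by omega) s le_rfl h hind _ _ (tau_zero 0) (tau_zero t)

end Pool.Agent.H39.SRGWL.Main
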