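import Pool.Agent.H39.SRGWL.Game

/-!
A counting argument: not all the graphs `GT h τ` are isomorphic.
-/

namespace Pool.Agent.H39.SRGWL

open Finset Matrix

/-- The functions `τ` used, supported on vectors of even weight with first coordinate `1`. -/
def tau {m' : ℕ} (t : (Fin m' → ZMod 2) → ZMod 2) (w : Fin (m' + 2) → ZMod 2) : ZMod 2 :=
  if w 0 = 1 ∧ ∑ i, w i = 0 then t (fun i => w i.succ.succ) else 0

theorem tau_zero {m' : ℕ} (t : (Fin m' → ZMod 2) → ZMod 2) : tau t 0 = 0 := by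
  simp [tau]

theorem tau_odd {m' : ℕ} (t : (Fin m' → ZMod 2) → ZMod 2) (w : Fin (m' + 2) → ZMod 2)
    (hw : ∑ i, w i ≠ 0) : tau t w = 0 := by
  rw [tau, if_neg]
  exact fun h => hw h.2

/-- index type of the standard points -/
abbrev Idx (m z : ℕ) := Option ((Fin m ⊕ Fin z) ⊕ (Fin m ⊕ Fin z))

/-- the standard points -/
def std {m z : ℕ} : Idx m z → HV m z × HV m z
  | none => 0
  | some (.inl (.inl i)) => ((Pi.single i 1, 0), (0, 0))
  | some (.inl (.inr j)) => ((0, Pi.single j 1), (0, 0))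
  | some (.inr (.inl i)) => ((0, 0), (Pi.single i 1, 0))
  | some (.inr (.inr j)) => ((0, 0), (0, Pi.single j 1))

theorem ff_std {m z : ℕ} (h : (Fin m → ZMod 2) → (Fin z → ZMod 2))
    (τ τ' : (Fin m → ZMod 2) → ZMod 2) (u u' : HV m z × HV m z)
    (hu : ∀ i, ff h τ (u + std i) = ff h τ' (u' + std i)) :
    u'.2.1 = u.2.1 ∧ u'.2.2 = u.2.2 ∧ u'.1.2 = u.1.2 ∧
    ∀ i, u'.1.1 i + (τ' (u.2.1 + Pi.single i 1) + τ' u.2.1)
      = u.1.1 i + (τ (u.2.1 + Pi.single i 1) + τ u.2.1) := by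
  have h0 := hu none
  simp only [std, add_zero] at h0
  obtain ⟨⟨ω, η⟩, ⟨w, ζ⟩⟩ := u
  obtain ⟨⟨ω', η'⟩, ⟨w', ζ'⟩⟩ := u'
  have hw : w' = w := by
    funext i
    have h1 := hu (some (.inl (.inl i)))
    simp only [ff, std, Prod.mk_add_mk, add_zero, add_dotProduct, single_dotProduct,
      one_mul] at h0 h1
    linear_combination h0 - h1
  subst hw
  have hz : ζ' = ζ := by
    funext i
    have h1 := hu (some (.inl (.inr i)))
    simp only [ff, std, Prod.mk_add_mk, add_zero, add_dotProduct, single_dotProduct,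
      one_mul] at h0 h1
    linear_combination h0 - h1
  subst hz
  have he : η' = η := by
    funext i
    have h1 := hu (some (.inr (.inr i)))
    simp only [ff, std, Prod.mk_add_mk, add_zero, dotProduct_add, dotProduct_single,
      mul_one] at h0 h1
    linear_combination h0 - h1
  subst he
  refine ⟨rfl, rfl, rfl, fun i => ?_⟩
  have h1 := hu (some (.inr (.inl i)))
  simp only [ff, std, Prod.mk_add_mk, add_zero, dotProduct_add, dotProduct_single,
    mul_one] at h0 h1
  have e1 : τ w' + τ w' = 0 := CharTwo.add_self_eq_zero _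
  have e2 : τ' w' + τ' w' = 0 := CharTwo.add_self_eq_zero _
  show ω' i + (τ' (w' + Pi.single i 1) + τ' w') = ω i + (τ (w' + Pi.single i 1) + τ w')
  linear_combination h0 - h1 - e1 + e2

theorem tau_eq_of_std {m' z : ℕ} (h : (Fin (m' + 2) → ZMod 2) → (Fin z → ZMod 2))
    (t t' : (Fin m' → ZMod 2) → ZMod 2) (w : Fin (m' + 2) → ZMod 2)
    (hw : ∑ i, w i = 0) (u' : HV (m' + 2) z × HV (m' + 2) z)
    (hu : ∀ i, ff h (tau t) ((((fun _ => tau t w), 0), (w, 0)) + std i)
      = ff h (tau t') (u' + std i)) : tau t w = tau t' w := by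
  obtain ⟨h1, h2, h3, h4⟩ := ff_std h (tau t) (tau t') _ u' hu
  simp only at h1 h2 h3 h4
  obtain ⟨⟨ω', η'⟩, ⟨w', ζ'⟩⟩ := u'
  simp only at h1 h2 h3 h4
  subst h1 h2 h3
  have hodd : ∀ i : Fin (m' + 2),
      ∑ j, (w' + (Pi.single i 1 : Fin (m' + 2) → ZMod 2)) j ≠ 0 := by
    intro i
    simp only [Pi.add_apply, Finset.sum_add_distrib, hw, zero_add]
    rw [Finset.sum_pi_single']
    simp
  have h5 : ω' = fun _ => tau t' w' := by
    funext i
    have := h4 i
    rw [tau_odd t _ (hodd i), tau_odd t' _ (hodd i), zero_add, zero_add] at this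
    have e1 : tau t w' + tau t w' = 0 := CharTwo.add_self_eq_zero _
    have e2 : tau t' w' + tau t' w' = 0 := CharTwo.add_self_eq_zero _
    linear_combination this + e1 - e2
  subst h5
  have h0 := hu none
  simp only [std, add_zero, ff, dotProduct_zero] at h0
  have key : ∀ a : ZMod 2, (fun _ => a) ⬝ᵥ w' = 0 := by
    intro a
    show ∑ i, a * w' i = 0
    rw [← Finset.mul_sum, hw, mul_zero]
  rw [key, key] at h0
  simpa using h0

theorem ff_zero {m z : ℕ} (h : (Fin m → ZMod 2) → (Fin z → ZMod 2))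
    (τ : (Fin m → ZMod 2) → ZMod 2) (h0 : τ 0 = 0) : ff h τ 0 = 0 := by
  simp [ff, h0]

theorem GT_adj' {m z : ℕ} (h : (Fin m → ZMod 2) → (Fin z → ZMod 2))
    (τ : (Fin m → ZMod 2) → ZMod 2) (h0 : τ 0 = 0) (u v : HV m z × HV m z) :
    (GT h τ).Adj u v ↔ ff h τ (u + v) = 1 := by
  rw [GT_adj]
  constructor
  · exact fun h => h.2
  · intro h1
    refine ⟨?_, h1⟩
    rintro rfl
    rw [two_HV, ff_zero h τ h0] at h1
    exact zero_ne_one h1

theorem zmod2_eq_of_iff (a b : ZMod 2) (h : a = 1 ↔ b = 1) : a = b := by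
  revert a b
  decide

theorem t_eq_of_iso {m' z : ℕ} (h : (Fin (m' + 2) → ZMod 2) → (Fin z → ZMod 2))
    (t t' : (Fin m' → ZMod 2) → ZMod 2) (ψ : GT h (tau t) ≃g GT h (tau t'))
    (hψ : ∀ i, ψ (std i) = std i) : t = t' := by
  funext x
  -- the vector with first coordinate 1, even weight and tail x
  let w : Fin (m' + 2) → ZMod 2 := Fin.cons 1 (Fin.cons (1 + ∑ i, x i) x)
  have hw0 : w 0 = 1 := rfl
  have hw : ∑ i, w i = 0 := by
    rw [Fin.sum_univ_succ, Fin.sum_univ_succ]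
    have e : ∀ i : Fin m', w i.succ.succ = x i := fun i => rfl
    have e1 : w (Fin.succ 0) = 1 + ∑ i, x i := rfl
    rw [hw0, e1]
    simp only [e]
    have e2 : ((1 : ZMod 2) + ∑ i, x i) + ((1 : ZMod 2) + ∑ i, x i) = 0 :=
      CharTwo.add_self_eq_zero _
    linear_combination e2
  have key := tau_eq_of_std h t t' w hw (ψ (((fun _ => tau t w), 0), (w, 0))) (by
    intro i
    apply zmod2_eq_of_iff
    rw [← GT_adj' h (tau t) (tau_zero t), ← GT_adj' h (tau t') (tau_zero t')]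
    conv_rhs => rw [← hψ i]
    exact (ψ.map_adj_iff).symm)
  have e3 : ∀ s : (Fin m' → ZMod 2) → ZMod 2, tau s w = s x := by
    intro s
    rw [tau, if_pos ⟨hw0, hw⟩]
    rfl
  rw [e3, e3] at key
  exact key

theorem exists_nonIso {m' z : ℕ} (h : (Fin (m' + 2) → ZMod 2) → (Fin z → ZMod 2))
    (hbig : (2 * (m' + 2 + z)) * (2 * (m' + 2 + z) + 1) < 2 ^ m') :
    ∃ t : (Fin m' → ZMod 2) → ZMod 2,
      ¬ Nonempty (GT h (tau (0 : (Fin m' → ZMod 2) → ZMod 2)) ≃g GT h (tau t)) := by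
  by_contra hcon
  have hcon' : ∀ t : (Fin m' → ZMod 2) → ZMod 2,
      Nonempty (GT h (tau (0 : (Fin m' → ZMod 2) → ZMod 2)) ≃g GT h (tau t)) := by
    intro t
    by_contra ht
    exact hcon ⟨t, ht⟩
  let φ := fun t => (hcon' t).some
  let p : ((Fin m' → ZMod 2) → ZMod 2) → (Idx (m' + 2) z → HV (m' + 2) z × HV (m' + 2) z) :=
    fun t i => (φ t).symm (std i)
  have hp : Function.Injective p := by
    intro t t' htt
    apply t_eq_of_iso h t t' ((φ t).symm.trans (φ t'))
    intro i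
    have := congrFun htt i
    show (φ t') ((φ t).symm (std i)) = std i
    have e : (φ t).symm (std i) = (φ t').symm (std i) := this
    rw [e]
    exact RelIso.apply_symm_apply _ _
  have hcard := Fintype.card_le_of_injective p hp
  simp only [Fintype.card_pi, Fintype.card_prod, ZMod.card, Finset.prod_const, Finset.card_univ,
    Fintype.card_fin, Fintype.card_option, Fintype.card_sum] at hcard
  have e1 : (2 ^ (m' + 2) * 2 ^ z * (2 ^ (m' + 2) * 2 ^ z)) ^ (m' + 2 + z + (m' + 2 + z) + 1)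
      = 2 ^ ((2 * (m' + 2 + z)) * (2 * (m' + 2 + z) + 1)) := by
    rw [← pow_add, ← pow_add, ← pow_mul]
    congr 1
    ring
  rw [e1] at hcard
  have := (Nat.pow_le_pow_iff_right (by norm_num)).1 hcard
  omega

end Pool.Agent.H39.SRGWL
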