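import Pool.Agent.H39.SRGWL.Defs

/-!
Cayley graphs of Maiorana-McFarland bent functions are strongly regular.
-/

namespace Pool.Agent.H39.SRGWL

open Finset

variable {V : Type} [AddCommGroup V] [Fintype V] [DecidableEq V]

/-- The function `(x, y) ↦ β x y + g y`. -/
def fMM (β : V →+ V →+ ZMod 2) (g : V → ZMod 2) (u : V × V) : ZMod 2 := β u.1 u.2 + g u.2

/-- The graph on `V × V` in which distinct `u, v` are adjacent when `fMM β g (u + v) = 1`. -/
def graphMM (β : V →+ V →+ ZMod 2) (g : V → ZMod 2) : SimpleGraph (V × V) where
  Adj u v := u ≠ v ∧ fMM β g (u + v) = 1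
  symm := ⟨fun u v h => ⟨h.1.symm, by rw [add_comm]; exact h.2⟩⟩
  loopless := ⟨fun _ h => h.1 rfl⟩

theorem two_card_of_involution {X : Type} [Fintype X] (P : X → Prop) [DecidablePred P]
    (e : X ≃ X) (he : ∀ x, P (e x) ↔ ¬ P x) :
    2 * (univ.filter P).card = Fintype.card X := by
  have h1 : (univ.filter P).card = (univ.filter fun x => ¬ P x).card := by
    apply Finset.card_bij (fun x _ => e x)
    · intro x hx
      simp only [mem_filter, mem_univ, true_and] at hx ⊢
      rw [he]
      exact fun h => h hx
    · intro a _ b _ h
      exact e.injective h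
    · intro b hb
      refine ⟨e.symm b, ?_, by simp⟩
      simp only [mem_filter, mem_univ, true_and] at hb ⊢
      by_contra h
      have := (he (e.symm b)).2 h
      rw [Equiv.apply_symm_apply] at this
      exact hb this
  have h2 := Finset.card_filter_add_card_filter_not (s := (univ : Finset X)) P
  rw [Finset.card_univ] at h2
  omega

theorem zmod2_flip (a b : ZMod 2) (hb : b = 1) : a + b = 1 ↔ ¬ a = 1 := by
  subst hb
  revert a
  decide

section

variable (two : ∀ x : V, x + x = 0) (β : V →+ V →+ ZMod 2)
  (hl : ∀ x, x ≠ 0 → ∃ y, β x y = 1) (hr : ∀ y, y ≠ 0 → ∃ x, β x y = 1)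
  (g : V → ZMod 2) (g0 : g 0 = 0)

include hr g0 in
theorem two_card_f : 2 * (univ.filter fun u : V × V => fMM β g u = 1).card
    = (Fintype.card V - 1) * Fintype.card V := by
  classical
  have h1 : (univ.filter fun u : V × V => fMM β g u = 1).card
      = ∑ y : V, (univ.filter fun x : V => fMM β g (x, y) = 1).card := by
    rw [Finset.card_filter, Fintype.sum_prod_type_right]
    apply Finset.sum_congr rfl
    intro y _
    rw [Finset.card_filter]
  rw [h1, Finset.mul_sum]
  have h2 : ∀ y : V, 2 * (univ.filter fun x : V => fMM β g (x, y) = 1).card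
      = if y = 0 then 0 else Fintype.card V := by
    intro y
    by_cases hy : y = 0
    · rw [if_pos hy]
      subst hy
      have : (univ.filter fun x : V => fMM β g (x, 0) = 1) = ∅ := by
        apply Finset.filter_eq_empty_iff.2
        intro x _
        simp [fMM, g0]
      rw [this]
      simp
    · rw [if_neg hy]
      obtain ⟨x0, hx0⟩ := hr y hy
      apply two_card_of_involution _ (Equiv.addRight x0)
      intro x
      have : fMM β g ((Equiv.addRight x0) x, y) = fMM β g (x, y) + β x0 y := by
        simp only [fMM, Equiv.coe_addRight, map_add, AddMonoidHom.add_apply]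
        ring
      rw [this]
      exact zmod2_flip _ _ hx0
  rw [Finset.sum_congr rfl fun y _ => h2 y, Finset.sum_ite, Finset.sum_const_zero, zero_add,
    Finset.sum_const, smul_eq_mul, Finset.filter_ne' univ (0 : V), Finset.card_erase_of_mem
    (Finset.mem_univ _), Finset.card_univ]

include hl hr in
theorem two_card_deriv (a : V × V) (ha : a ≠ 0) :
    2 * (univ.filter fun u : V × V => fMM β g (u + a) + fMM β g u = 1).card
      = Fintype.card V * Fintype.card V := by
  classical
  rw [← Fintype.card_prod]
  obtain ⟨a1, a2⟩ := a
  by_cases h2 : a2 = 0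
  · subst h2
    have h1 : a1 ≠ 0 := by
      rintro rfl
      exact ha rfl
    obtain ⟨y0, hy0⟩ := hl a1 h1
    apply two_card_of_involution _ (Equiv.addRight ((0 : V), y0))
    rintro ⟨x, y⟩
    have : fMM β g ((Equiv.addRight ((0 : V), y0)) (x, y) + (a1, 0))
        + fMM β g ((Equiv.addRight ((0 : V), y0)) (x, y))
        = (fMM β g ((x, y) + (a1, 0)) + fMM β g (x, y)) + β a1 y0 := by
      simp only [fMM, Equiv.coe_addRight, Prod.mk_add_mk, add_zero, map_add,
        AddMonoidHom.add_apply]
      have e1 : g (y + y0) + g (y + y0) = 0 := CharTwo.add_self_eq_zero _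
      have e2 : g y + g y = 0 := CharTwo.add_self_eq_zero _
      have e3 : (β x) y0 + (β x) y0 = 0 := CharTwo.add_self_eq_zero _
      linear_combination e1 - e2 + e3
    rw [this]
    exact zmod2_flip _ _ hy0
  · obtain ⟨x0, hx0⟩ := hr a2 h2
    apply two_card_of_involution _ (Equiv.addRight (x0, (0 : V)))
    rintro ⟨x, y⟩
    have : fMM β g ((Equiv.addRight (x0, (0 : V))) (x, y) + (a1, a2))
        + fMM β g ((Equiv.addRight (x0, (0 : V))) (x, y))
        = (fMM β g ((x, y) + (a1, a2)) + fMM β g (x, y)) + β x0 a2 := by
      simp only [fMM, Equiv.coe_addRight, Prod.mk_add_mk, add_zero, map_add,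
        AddMonoidHom.add_apply]
      have e3 : (β x0) y + (β x0) y = 0 := CharTwo.add_self_eq_zero _
      linear_combination e3
    rw [this]
    exact zmod2_flip _ _ hx0

include hl hr g0 in
theorem four_card_common (a : V × V) (ha : a ≠ 0) :
    4 * (univ.filter fun u : V × V => fMM β g u = 1 ∧ fMM β g (u + a) = 1).card
      + 2 * Fintype.card V = Fintype.card V * Fintype.card V := by
  classical
  have hk := two_card_f β hr g g0
  have hd := two_card_deriv β hl hr g a ha
  have hk2 : (univ.filter fun u : V × V => fMM β g (u + a) = 1).card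
      = (univ.filter fun u : V × V => fMM β g u = 1).card := by
    apply Finset.card_bij (fun x _ => x + a)
    · intro x hx
      simpa using hx
    · intro x _ y _ h
      exact add_right_cancel h
    · intro b hb
      exact ⟨b - a, by simpa using hb, by simp⟩
  -- inclusion exclusion
  have e1 : (univ.filter fun u : V × V => fMM β g u = 1).card
      = (univ.filter fun u : V × V => fMM β g u = 1 ∧ fMM β g (u + a) = 1).card
        + (univ.filter fun u : V × V => fMM β g u = 1 ∧ ¬ fMM β g (u + a) = 1).card := by
    rw [← Finset.card_filter_add_card_filter_not (s := univ.filter fun u : V × V =>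
      fMM β g u = 1) (fun u => fMM β g (u + a) = 1), Finset.filter_filter, Finset.filter_filter]
  have e2 : (univ.filter fun u : V × V => fMM β g (u + a) = 1).card
      = (univ.filter fun u : V × V => fMM β g u = 1 ∧ fMM β g (u + a) = 1).card
        + (univ.filter fun u : V × V => ¬ fMM β g u = 1 ∧ fMM β g (u + a) = 1).card := by
    rw [← Finset.card_filter_add_card_filter_not (s := univ.filter fun u : V × V =>
      fMM β g (u + a) = 1) (fun u => fMM β g u = 1), Finset.filter_filter, Finset.filter_filter]
    simp only [and_comm]
  have e3 : (univ.filter fun u : V × V => fMM β g (u + a) + fMM β g u = 1).card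
      = (univ.filter fun u : V × V => fMM β g u = 1 ∧ ¬ fMM β g (u + a) = 1).card
        + (univ.filter fun u : V × V => ¬ fMM β g u = 1 ∧ fMM β g (u + a) = 1).card := by
    rw [← Finset.card_union_of_disjoint]
    · congr 1
      ext u
      simp only [mem_filter, mem_univ, true_and, mem_union]
      generalize fMM β g (u + a) = s
      generalize fMM β g u = t
      revert s t
      decide
    · rw [Finset.disjoint_filter]
      intro u _ h1 h2
      exact h2.1 h1.1
  have hV : 1 ≤ Fintype.card V := Fintype.card_pos_iff.2 ⟨0⟩
  obtain ⟨N, hN⟩ : ∃ N, Fintype.card V = N + 1 := ⟨Fintype.card V - 1, by omega⟩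
  rw [hN] at hk hd ⊢
  simp only [Nat.add_sub_cancel] at hk
  have e4 : (N + 1) * (N + 1) = N * (N + 1) + (N + 1) := by ring
  rw [e4] at hd ⊢
  generalize N * (N + 1) = Q at hk hd ⊢
  omega

open Classical in
include two hl hr g0 in
/-- The graphs `graphMM β g` are strongly regular, with parameters that do not depend on `g`. -/
theorem graphMM_isSRG : (graphMM β g).IsSRGWith (Fintype.card V * Fintype.card V)
    ((Fintype.card V - 1) * Fintype.card V / 2)
    ((Fintype.card V * Fintype.card V - 2 * Fintype.card V) / 4)
    ((Fintype.card V * Fintype.card V - 2 * Fintype.card V) / 4) := by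
  have two' : ∀ x : V × V, x + x = 0 := fun x => Prod.ext (two _) (two _)
  have f0 : fMM β g 0 = 0 := by simp [fMM, g0]
  have hadj : ∀ u v : V × V, (graphMM β g).Adj u v ↔ fMM β g (u + v) = 1 := by
    intro u v
    constructor
    · exact fun h => h.2
    · intro h
      refine ⟨?_, h⟩
      rintro rfl
      rw [two', f0] at h
      exact zero_ne_one h
  have hcom : ∀ v w : V × V, v ≠ w → Fintype.card ((graphMM β g).commonNeighbors v w)
      = (Fintype.card V * Fintype.card V - 2 * Fintype.card V) / 4 := by
    intro v w hvw
    have ha : v + w ≠ 0 := by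
      intro h
      apply hvw
      have : v + w + w = 0 + w := by rw [h]
      rw [add_assoc, two', add_zero, zero_add] at this
      exact this
    have h4 := four_card_common β hl hr g g0 (v + w) ha
    have h5 : Fintype.card ((graphMM β g).commonNeighbors v w)
        = (univ.filter fun u : V × V => fMM β g u = 1 ∧ fMM β g (u + (v + w)) = 1).card := by
      rw [← Fintype.card_coe]
      apply Fintype.card_congr
      refine ⟨fun x => ⟨v + x.1, ?_⟩, fun x => ⟨v + x.1, ?_⟩, ?_, ?_⟩
      · have hx := x.2
        rw [SimpleGraph.mem_commonNeighbors] at hx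
        rw [mem_filter]
        refine ⟨mem_univ _, (hadj _ _).1 hx.1, ?_⟩
        have e : v + x.1 + (v + w) = w + x.1 := by
          have := two' v
          calc v + x.1 + (v + w) = (v + v) + (w + x.1) := by abel
            _ = w + x.1 := by rw [this, zero_add]
        rw [e]
        exact (hadj _ _).1 hx.2
      · have hx := x.2
        rw [mem_filter] at hx
        rw [SimpleGraph.mem_commonNeighbors, hadj, hadj]
        constructor
        · rw [← add_assoc, two', zero_add]
          exact hx.2.1
        · have e : w + (v + x.1) = x.1 + (v + w) := by abel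
          rw [e]
          exact hx.2.2
      · intro x
        apply Subtype.ext
        show v + (v + x.1) = x.1
        rw [← add_assoc, two', zero_add]
      · intro x
        apply Subtype.ext
        show v + (v + x.1) = x.1
        rw [← add_assoc, two', zero_add]
    rw [h5]
    omega
  refine ⟨by rw [Fintype.card_prod], ?_, ?_, ?_⟩
  · intro v
    rw [SimpleGraph.degree]
    have h3 := two_card_f β hr g g0
    have h5 : ((graphMM β g).neighborFinset v).card
        = (univ.filter fun u : V × V => fMM β g u = 1).card := by
      apply Finset.card_bij (fun x _ => v + x)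
      · intro x hx
        rw [SimpleGraph.mem_neighborFinset, hadj] at hx
        simpa using hx
      · intro x _ y _ h
        exact add_left_cancel h
      · intro b hb
        refine ⟨v + b, ?_, ?_⟩
        · rw [SimpleGraph.mem_neighborFinset, hadj, ← add_assoc, two', zero_add]
          simpa using hb
        · rw [← add_assoc, two', zero_add]
    rw [h5]
    omega
  · intro v w h
    exact hcom v w h.ne
  · intro v w hvw _
    exact hcom v w hvw

end

end Pool.Agent.H39.SRGWL
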